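import Pool.Agent.Helper46.NU.Goals1

open MeasureTheory Filter Topology Set
open scoped ENNReal

noncomputable section

namespace NU.PkOVR

theorem cont_ovr {S : Sys} (F : Finset (S.C × ℕ)) (φ₁ : Ph S) : Continuous (ovr F φ₁) := by
  refine continuous_pi fun p => ?_
  by_cases hp : p ∈ F
  · have : (fun φ : Ph S => ovr F φ₁ φ p) = fun _ => φ₁ p := by
      funext φ; simp [ovr, hp]
    rw [this]; exact continuous_const
  · have : (fun φ : Ph S => ovr F φ₁ φ p) = fun φ => φ p := by
      funext φ; simp [ovr, hp]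
    rw [this]; exact continuous_apply p

theorem open_ovr {S : Sys} (F : Finset (S.C × ℕ)) (φ₁ : Ph S) : IsOpenMap (ovr F φ₁) := by
  classical
  rw [isOpenMap_iff_nhds_le]
  intro a U hU
  rw [mem_map, nhds_pi, Filter.mem_pi] at hU
  obtain ⟨I, hI, t, ht, hsub⟩ := hU
  have key : ∀ᶠ φ in 𝓝 (ovr F φ₁ a), ∀ p ∈ F ∪ hI.toFinset, φ p = ovr F φ₁ a p := by
    rw [Filter.eventually_all_finset]
    intro p _
    have hc : ContinuousAt (fun φ : Ph S => φ p) (ovr F φ₁ a) := (continuous_apply p).continuousAt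
    have hs : {x : CF S | x = ovr F φ₁ a p} ∈ 𝓝 (ovr F φ₁ a p) := by
      rw [nhds_discrete]; exact Filter.mem_pure.2 rfl
    exact hc hs
  refine Filter.mem_of_superset key ?_
  intro φ hφ
  have hmem : (fun p => if p ∈ F then a p else φ p) ∈ I.pi t := by
    intro p hp
    have hat : a p ∈ t p := mem_of_mem_nhds (ht p)
    by_cases hpF : p ∈ F
    · simpa [hpF] using hat
    · have h1 : φ p = a p := by
        have := hφ p (Finset.mem_union_right _ (hI.mem_toFinset.2 hp))
        simpa [ovr, hpF] using this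
      simpa [hpF, h1] using hat
  have h2 := hsub hmem
  have h3 : ovr F φ₁ (fun p => if p ∈ F then a p else φ p) = φ := by
    funext p
    by_cases hpF : p ∈ F
    · have := hφ p (Finset.mem_union_left _ hpF)
      simp only [ovr, hpF, if_true] at this ⊢
      exact this.symm
    · simp [ovr, hpF]
  have h4 : ovr F φ₁ (fun p => if p ∈ F then a p else φ p) ∈ U := h2
  rwa [h3] at h4

theorem ovr_ : G_OVR := by
  intro S F φ₁ Q h
  have h1 := (tendsto_residual_of_isOpenMap (cont_ovr F φ₁) (open_ovr F φ₁)).eventually h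
  refine h1.mono fun φ hφ => hφ ?_
  intro p hp
  simp [ovr, hp]

end NU.PkOVR
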