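import Pool.Agent.Helper46.NU.DfnT

/-! # MP_1fe1ca_lc, packet SYA: null sets are definable -/

noncomputable section

namespace NU.PkSYA

open Pool.Agent.Helper97.Ku

theorem code_iff {N : Type 1} (E : N → N → Prop) (o k F : N) :
    Code E o k F ↔ ((∀ t, E t F → ∃ n, E n o ∧ Lst E t n) ∧
      ((∀ t t' n n', (E t F ∧ (E n o ∧ (Lst E t n ∧ (Suc E n' n ∧ (Lst E t' n' ∧
        AgB E n t t'))))) → E t' F) ∧
      ((∀ n t, (E n o ∧ (E n k ∧ E t F)) → ¬ Lst E t n) ∧
      (∀ n, (E n o ∧ ¬ E n k) →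
        Inj E (fun t => E t F ∧ Lst E t n) (fun u => Sub E u n ∧ ∀ m, E m u → ¬ E m k))))) := by
  constructor
  · intro h
    exact ⟨h.last, fun t t' n n' ⟨h1, h2, h3, h4, h5, h6⟩ => h.mono t t' n n' h1 h2 h3 h4 h5 h6,
      fun n t ⟨h1, h2, h3⟩ => h.small n t h1 h2 h3, fun n ⟨h1, h2⟩ => h.card n h1 h2⟩
  · rintro ⟨h1, h2, h3, h4⟩
    exact ⟨h1, fun t t' n n' a b c d e f => h2 t t' n n' ⟨a, b, c, d, e, f⟩,
      fun n t a b c => h3 n t ⟨a, b, c⟩, fun n a b => h4 n ⟨a, b⟩⟩

theorem code (syi : G_SYI) (o k F b : ℕ) (ho : o < b) (hk : k < b) (hF : F < b) :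
    Dfn (fun _ E w => Code E (w o) (w k) (w F)) (fun _ _ w => codeV (w o) (w k) (w F)) := by
  have o0 : o ≠ b := by omega
  have o1 : o ≠ b + 1 := by omega
  have o2 : o ≠ b + 2 := by omega
  have o3 : o ≠ b + 3 := by omega
  have k0 : k ≠ b := by omega
  have k1 : k ≠ b + 1 := by omega
  have F0 : F ≠ b := by omega
  have F1 : F ≠ b + 1 := by omega
  have F2 : F ≠ b + 2 := by omega
  have F3 : F ≠ b + 3 := by omega
  -- n = b, t = b + 1, n' = b + 2, t' = b + 3, fresh: b + 4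
  have c1 : Dfn (fun _ E w => ∀ t, E t (w F) → ∃ n, E n (w o) ∧ Lst E t n)
      (fun L _ w => ⨅ t : BSet L, (t.mem (w F) ⇨ ⨆ n : BSet L, (n.mem (w o) ⊓ lstV t n))) :=
    Dfn.congr (Dfn.all (b + 1) (Dfn.imp (Dfn.mem (b + 1) F)
      (Dfn.ex b (Dfn.and (Dfn.mem b o) (Dfn.lst (b + 1) b (b + 4) (by omega) (by omega))))))
      (fun N E w => by simp [Function.update_apply, o0, o1, F1])
      (fun L _ w => by simp [Function.update_apply, o0, o1, F1])
  have c2 : Dfn (fun _ E w => ∀ t t' n n', (E t (w F) ∧ (E n (w o) ∧ (Lst E t n ∧ (Suc E n' n ∧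
        (Lst E t' n' ∧ AgB E n t t'))))) → E t' (w F))
      (fun L _ w => ⨅ t : BSet L, ⨅ t' : BSet L, ⨅ n : BSet L, ⨅ n' : BSet L,
        ((t.mem (w F) ⊓ (n.mem (w o) ⊓ (lstV t n ⊓ (sucV n' n ⊓ (lstV t' n' ⊓ agbV n t t'))))) ⇨
          t'.mem (w F))) :=
    Dfn.congr (Dfn.all (b + 1) (Dfn.all (b + 3) (Dfn.all b (Dfn.all (b + 2)
      (Dfn.imp (Dfn.and (Dfn.mem (b + 1) F) (Dfn.and (Dfn.mem b o)
        (Dfn.and (Dfn.lst (b + 1) b (b + 4) (by omega) (by omega))
        (Dfn.and (Dfn.suc (b + 2) b (b + 4) (by omega) (by omega))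
        (Dfn.and (Dfn.lst (b + 3) (b + 2) (b + 4) (by omega) (by omega))
          (Dfn.agb b (b + 1) (b + 3) (b + 4) (by omega) (by omega) (by omega)))))))
        (Dfn.mem (b + 3) F))))))
      (fun N E w => by simp [Function.update_apply, o0, o1, o2, o3, F0, F1, F2, F3])
      (fun L _ w => by simp [Function.update_apply, o0, o1, o2, o3, F0, F1, F2, F3])
  have c3 : Dfn (fun _ E w => ∀ n t, (E n (w o) ∧ (E n (w k) ∧ E t (w F))) → ¬ Lst E t n)
      (fun L _ w => ⨅ n : BSet L, ⨅ t : BSet L,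
        ((n.mem (w o) ⊓ (n.mem (w k) ⊓ t.mem (w F))) ⇨ (lstV t n)ᶜ)) :=
    Dfn.congr (Dfn.all b (Dfn.all (b + 1) (Dfn.imp (Dfn.and (Dfn.mem b o)
      (Dfn.and (Dfn.mem b k) (Dfn.mem (b + 1) F)))
      (Dfn.neg (Dfn.lst (b + 1) b (b + 4) (by omega) (by omega))))))
      (fun N E w => by simp [Function.update_apply, o0, o1, k0, k1, F0, F1])
      (fun L _ w => by simp [Function.update_apply, o0, o1, k0, k1, F0, F1])
  have inj : Dfn (fun _ E w => Inj E (fun t => E t (w F) ∧ Lst E t (w b))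
        (fun u => Sub E u (w b) ∧ ∀ m, E m u → ¬ E m (w k)))
      (fun L _ w => injV (fun t => t.mem (w F) ⊓ lstV t (w b))
        (fun u => subV u (w b) ⊓ ⨅ m : BSet L, (m.mem u ⇨ (m.mem (w k))ᶜ))) := by
    refine syi (b + 1) (fun _ E w t => E t (w F) ∧ Lst E t (w b))
      (fun _ E w u => Sub E u (w b) ∧ ∀ m, E m u → ¬ E m (w k))
      (fun L _ w t => t.mem (w F) ⊓ lstV t (w b))
      (fun L _ w u => subV u (w b) ⊓ ⨅ m : BSet L, (m.mem u ⇨ (m.mem (w k))ᶜ)) ?_ ?_ ?_ ?_
    · intro N E w w' h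
      have e1 := h F (by omega)
      have e2 := h b (by omega)
      have e3 := h k (by omega)
      constructor
      · funext t; rw [e1, e2]
      · funext t; rw [e2, e3]
    · intro L _ w w' h
      have e1 := h F (by omega)
      have e2 := h b (by omega)
      have e3 := h k (by omega)
      constructor
      · funext t; rw [e1, e2]
      · funext t; rw [e2, e3]
    · intro i
      exact Dfn.and (Dfn.mem i F) (Dfn.lst i b (i + b + 1) (by omega) (by omega))
    · intro i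
      have hi : i ≠ i + b + 1 := by omega
      have hk' : k ≠ i + b + 1 := by omega
      exact Dfn.and (Dfn.sub i b (i + b + 1) (by omega) (by omega))
        (Dfn.congr (Dfn.all (i + b + 1) (Dfn.imp (Dfn.mem (i + b + 1) i)
          (Dfn.neg (Dfn.mem (i + b + 1) k))))
          (fun N E w => by simp [Function.update_of_ne hi, Function.update_of_ne hk'])
          (fun L _ w => by simp [Function.update_of_ne hi, Function.update_of_ne hk']))
  have c4 : Dfn (fun _ E w => ∀ n, (E n (w o) ∧ ¬ E n (w k)) →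
        Inj E (fun t => E t (w F) ∧ Lst E t n) (fun u => Sub E u n ∧ ∀ m, E m u → ¬ E m (w k)))
      (fun L _ w => ⨅ n : BSet L, ((n.mem (w o) ⊓ (n.mem (w k))ᶜ) ⇨
        injV (fun t => t.mem (w F) ⊓ lstV t n)
          (fun u => subV u n ⊓ ⨅ m : BSet L, (m.mem u ⇨ (m.mem (w k))ᶜ)))) :=
    Dfn.congr (Dfn.all b (Dfn.imp (Dfn.and (Dfn.mem b o) (Dfn.neg (Dfn.mem b k))) inj))
      (fun N E w => by
        simp only [Function.update_self, Function.update_of_ne o0, Function.update_of_ne k0,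
          Function.update_of_ne F0])
      (fun L _ w => by
        simp only [Function.update_self, Function.update_of_ne o0, Function.update_of_ne k0,
          Function.update_of_ne F0])
  exact Dfn.congr (Dfn.and c1 (Dfn.and c2 (Dfn.and c3 c4)))
    (fun N E w => (code_iff E _ _ _).symm) (fun L _ w => rfl)

theorem cov (F A b : ℕ) (hF : F < b) (hA : A < b) :
    Dfn (fun _ E w => Cov E (w F) (w A)) (fun _ _ w => covV (w F) (w A)) := by
  have F0 : F ≠ b := by omega
  have F1 : F ≠ b + 1 := by omega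
  have F2 : F ≠ b + 2 := by omega
  have A0 : A ≠ b := by omega
  have A1 : A ≠ b + 1 := by omega
  have A2 : A ≠ b + 2 := by omega
  -- x = b, t = b + 1, n = b + 2
  exact Dfn.congr (Dfn.all b (Dfn.imp (Dfn.mem b A) (Dfn.ex (b + 1) (Dfn.ex (b + 2)
    (Dfn.and (Dfn.mem (b + 1) F) (Dfn.and (Dfn.lst (b + 1) (b + 2) (b + 4) (by omega) (by omega))
      (Dfn.agb (b + 2) (b + 1) b (b + 4) (by omega) (by omega) (by omega))))))))
    (fun N E w => by simp [Cov, Function.update_apply, F0, F1, F2, A0, A1, A2])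
    (fun L _ w => by simp [covV, Function.update_apply, F0, F1, F2, A0, A1, A2])

theorem sya (syi : G_SYI) : G_SYA := by
  intro i j
  obtain ⟨m, hm⟩ : ∃ m, m = max i j + 1 := ⟨_, rfl⟩
  have hi : i < m := by rw [hm]; exact Nat.lt_succ_of_le (le_max_left _ _)
  have hj : j < m := by rw [hm]; exact Nat.lt_succ_of_le (le_max_right _ _)
  have i0 : i ≠ m := by omega
  have i1 : i ≠ m + 1 := by omega
  have j0 : j ≠ m := by omega
  have j1 : j ≠ m + 1 := by omega
  have c1 : Dfn (fun _ E w => IsReals E (w i) (w j)) (fun _ _ w => realsV (w i) (w j)) :=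
    Dfn.congr (Dfn.all m (Dfn.imp (Dfn.mem m j) (Dfn.sub m i (m + 1) (by omega) (by omega))))
      (fun N E w => by simp [IsReals, Function.update_apply, i0, j0])
      (fun L _ w => by simp [realsV, Function.update_apply, i0, j0])
  have c2 : Dfn (fun _ E w => ∀ k, E k (w i) → ∃ F, Code E (w i) k F ∧ Cov E F (w j))
      (fun L _ w => ⨅ k : BSet L, (k.mem (w i) ⇨ ⨆ F : BSet L,
        (codeV (w i) k F ⊓ covV F (w j)))) :=
    Dfn.congr (Dfn.all m (Dfn.imp (Dfn.mem m i) (Dfn.ex (m + 1)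
      (Dfn.and (code syi i m (m + 1) (m + 2) (by omega) (by omega) (by omega))
        (cov (m + 1) j (m + 2) (by omega) (by omega))))))
      (fun N E w => by simp [Function.update_apply, i0, i1, j0, j1])
      (fun L _ w => by simp [Function.update_apply, i0, i1, j0, j1])
  exact Dfn.congr (Dfn.and c1 c2) (fun N E w => Iff.rfl) (fun L _ w => rfl)

end NU.PkSYA
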